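import Pool.Agent.Q126.FD.Tate
import Pool.Agent.Q126.FD.Fg

/-!
# The Tate conjecture at 2 for almost all elliptic surfaces `y² = x (x - a) (x - b)` of odd degree
# over all infinite finitely generated fields of odd characteristic

Let `𝔽` be a finite field of odd characteristic and `k` a field which is generated by finitely many
elements over `𝔽(u)`, `u` transcendental over `𝔽` (every infinite finitely generated field of odd
characteristic is such a field, with `𝔽` the prime field and `u` any transcendental element). Let
`k'` be a separable closure of `k`, `K = k(t)`, `F = k'(t)`, `N ≥ 5` odd. For general polynomials `a`,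
`b` of degree `N` the elliptic surface over the projective line with the generic fibre

`E : y² = x (x - a) (x - b)`

has `3 N` fibres of type `I₂` and a fibre of type `I₀*` at infinity, its geometric genus is
`(N - 1) / 2`, and it is geometrically simply connected.

Theorem. Among the pairs `(a, b)` of polynomials of degree at most `N` in `t` whose coefficients are
polynomials in `u` over `𝔽` of degree less than `D`, the proportion of those for which

for all constants `d ≠ 0` in `k`, the twist `y² = x (x - d a) (x - d b)` of `E` satisfies the Tate
conjecture for divisors at the prime 2 over `k` (`TateAtTwo`), and all its Tate classes are zero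
(`GeneratedBy` with no generators)

tends to one as `D` tends to infinity.

So for almost all pairs there are no transcendental Tate classes at 2 on all the twists over `k`, and
`E` and its twists by constants have only torsion points over `k(t)`.

The proof: by the second geometric 2-descent (`Pool.Agent.TH115.SD`) it is sufficient that `a`, `b`,
`a - b` are irreducible and separable of degree `N`, and that no constant multiple of `b` is a square
modulo `a`. For infinitely many primes `π(u)` the field `k` has an embedding in the field of power
series over `𝔽[u] / π`, compatible with `u` (the analogue of a theorem of Cassels, `rich_fg`). For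
each of these primes, a positive proportion (depending only on `N`) of the residue classes modulo `π`
of `(a, b)` consists of pairs for which `a` (or `b`, or `a - b`) is irreducible, and the same holds for
the pairs for which `a` has two simple roots `α`, `β` modulo `π` such that `b(α) b(β)` is not a square
modulo `π`: this excludes that a constant multiple of `b` is a square modulo `a`. So almost all pairs
have all these properties, each at some prime.
-/

set_option autoImplicit false

namespace Pool.Agent.Results.MP_1bad5e_ag.AlmostAllPositiveCharacteristic

open Polynomial Filter Topology Pool.Agent.TH115.GD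

/-- `k` is an extension of `𝔽(u)` which is generated by finitely many elements (`u` is the image of
the variable of `𝔽[X]`). -/
def FinitelyGenerated (𝔽 k : Type) [Field 𝔽] [Field k] [Algebra 𝔽[X] k] : Prop :=
  Function.Injective (algebraMap 𝔽[X] k) ∧
    ∃ s : Finset k, Subfield.closure (Set.range (algebraMap 𝔽[X] k) ∪ (s : Set k)) = ⊤

/-- The polynomials of degree at most `n` in `t` whose coefficients are polynomials of degree less
than `D` in `u`. -/
def polys (𝔽 : Type) [Field 𝔽] (n D : ℕ) : Set 𝔽[X][X] :=
  {f | f.natDegree ≤ n ∧ ∀ i, f.coeff i ∈ degreeLT 𝔽 D}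

/-- The pairs of such polynomials. -/
def pairs (𝔽 : Type) [Field 𝔽] (n D : ℕ) : Set (𝔽[X][X] × 𝔽[X][X]) :=
  {x | x.1 ∈ polys 𝔽 n D ∧ x.2 ∈ polys 𝔽 n D}

/-- The set of pairs `(a, b)` for which the Tate conjecture at 2 holds for all the twists by constants
`d ≠ 0` in `k` of `y² = x (x - a) (x - b)`, and all their Tate classes at 2 are zero. -/
def Good (𝔽 k k' K F : Type) [Field 𝔽] [Field k] [Algebra 𝔽[X] k] [Field k'] [Algebra k k']
    [Field K] [Algebra k[X] K] [Field F] [Algebra k'[X] F] [IsFractionRing k'[X] F] [Algebra K F] :
    Set (𝔽[X][X] × 𝔽[X][X]) :=
  {x | ∀ d : k, d ≠ 0 →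
    TateAtTwo (F := F) k' (crv (algebraMap k[X] K (C d * x.1.map (algebraMap 𝔽[X] k)))
      (algebraMap k[X] K (C d * x.2.map (algebraMap 𝔽[X] k)))) ∧
    GeneratedBy (F := F) k' (crv (algebraMap k[X] K (C d * x.1.map (algebraMap 𝔽[X] k)))
      (algebraMap k[X] K (C d * x.2.map (algebraMap 𝔽[X] k)))) 0}

/-- **The Tate conjecture at 2 for almost all elliptic surfaces `y² = x (x - a) (x - b)` of odd
degree over infinite finitely generated fields of odd characteristic.** -/
theorem result (𝔽 : Type) [Field 𝔽] [Finite 𝔽] (h2 : (2 : 𝔽) ≠ 0) (N : ℕ) (hN : 5 ≤ N)
    (hodd : Odd N) (k k' K F : Type) [Field k] [Algebra 𝔽[X] k] (hk : FinitelyGenerated 𝔽 k)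
    [Field k'] [Algebra k k'] [Field K] [Algebra k[X] K] [Field F] [Algebra k'[X] F]
    [IsFractionRing k'[X] F] [Algebra K F] (hT : IsTower k k' K F) :
    Tendsto (fun D : ℕ => ((pairs 𝔽 N D ∩ Good 𝔽 k k' K F).ncard : ℝ) / (pairs 𝔽 N D).ncard)
      atTop (𝓝 1) := by
  obtain ⟨hinj, s, hs⟩ := hk
  exact Pool.Agent.Q126.FD.core_two (Pool.Agent.Q126.FD.rich_fg k hinj s hs) h2 hN hodd hT
    fun x hx => hx

end Pool.Agent.Results.MP_1bad5e_ag.AlmostAllPositiveCharacteristic
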