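import Mathlib
import Pool.Agent.TH115.GD.Defs
import Pool.Agent.TH115.GD.Rk2
import Pool.Agent.Q308.TC.Forms

/-!
# The Tate conjecture at 2 for almost all rational pull-backs of the rational elliptic surfaces of
# rank two with six fibres `I₂`

Let `k` be a finitely generated field of characteristic zero, `k'` a separable closure of `k`,
`K = k(t)`, `F = k'(t)`. Let `α`, `β`, `μ` be elements of `k`, not zero, with

`((α + β)² - 1) ((α - β)² - 1) = μ²`.

The rational elliptic surface `y² = x (x - (p² - q²)) (x - (p² - r²))`, `p = α q + β r`, over the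
projective line with the coordinate `s = q / r`, has six fibres of type `I₂` (over the zeros of the
linear forms `p ± q`, `p ± r`, `q ± r`) and two independent sections.

Let `N` be odd, and let `b i`, `i` in a finite set `κ`, be any polynomials over `k` which span the
polynomials of degree at most `N` (for example the `b i = t ^ i`; then the integer combinations of the
`b i` are the integer polynomials of degree at most `N`).

Theorem. Among the pairs `q`, `r` of integer combinations of the `b i` with coefficients of absolute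
value at most `B`, the proportion of those for which `q`, `r` are coprime, the six polynomials `p ± q`,
`p ± r`, `q ± r` are irreducible of degree `N`, and the pull-back of this surface by the rational
function `s = q(t) / r(t)`, that is,

`E : y² = x (x - (p(t)² - q(t)²)) (x - (p(t)² - r(t)²))`,

satisfies the Tate conjecture for divisors at the prime 2 over `k` (every class in `V₂ Sel(E / F)` which
is fixed by the Galois group of `k` comes from `E(K)`), tends to one as `B` tends to infinity.

The surface `X` with the generic fibre `E` over the projective line has `6 N` fibres of type `I₂` and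
geometric genus `N - 1`, it is simply connected, and `Br(X ⊗ k') = Ш(E / F)` (Grothendieck). So the Tate
conjecture for divisors at 2 holds for the pull-backs by 100 percent of the rational functions of odd
degree with integer coefficients, over every finitely generated field of characteristic zero.

Method: a descent theorem for the pull-backs with irreducible forms (`Pool.Agent.TH115`). The field `k`
can be embedded in `ℚ_p` for infinitely many primes `p`, such that all the coefficients which occur and
their inverses are integral (Cassels). For each of these primes a positive proportion (depending only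
on `N`) of the pairs `(q, r)` is such that the form `u q + w r` is irreducible modulo `p`; and for almost
all pairs `q + t r` is irreducible, so that `q` and `r` are coprime.
-/

set_option autoImplicit false
set_option linter.all false

namespace Pool.Agent.Results.MP_1bad5e_ag.AlmostAllRationalPullbacks

open Polynomial Filter Topology Pool.Agent.TH115.GD

section defs

variable {k : Type} [Field k] {κ : Type} [Fintype κ]

/-- The polynomials `b i` have degree at most `N` and span the polynomials of degree at most `N`. -/
def Spans (N : ℕ) (b : κ → k[X]) : Prop :=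
  (∀ i, (b i).natDegree ≤ N) ∧ ∀ j : Fin (N + 1), ∃ c : κ → k, ∑ i, C (c i) * b i = X ^ (j : ℕ)

/-- The integer combination of the `b i` with the coefficients `v i`. -/
noncomputable def comb (b : κ → k[X]) (v : κ → ℤ) : k[X] := ∑ i, C ((v i : ℤ) : k) * b i

/-- The pairs of integer vectors with coordinates of absolute value at most `B`. -/
def Pairs (κ : Type) (B : ℕ) : Set ((κ → ℤ) × (κ → ℤ)) := {v | ∀ i, |v.1 i| ≤ B ∧ |v.2 i| ≤ B}

/-- The six forms `p ± q`, `p ± r`, `q ± r` are irreducible of degree `n`. -/
def SixForms (n : ℕ) (p q r : k[X]) : Prop :=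
  ∀ f ∈ ({p + q, p - q, p + r, p - r, q + r, q - r} : Set k[X]),
    Irreducible f ∧ f.natDegree = n

/-- The Tate conjecture at 2 for `y ^ 2 = x (x - (p ^ 2 - q ^ 2)) (x - (p ^ 2 - r ^ 2))` over `k(t)`. -/
def TateFor (p q r : k[X]) : Prop :=
  ∀ (k' K F : Type) [Field k'] [Algebra k k'] [Field K] [Algebra k[X] K]
    [Field F] [Algebra k'[X] F] [IsFractionRing k'[X] F] [Algebra K F], IsTower k k' K F →
    TateAtTwo (F := F) k'
      (crv (algebraMap k[X] K (p ^ 2 - q ^ 2)) (algebraMap k[X] K (p ^ 2 - r ^ 2)))

/-- The pairs of vectors for which the pull-back by `q / r` has all the properties. -/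
def Good (N : ℕ) (α β : k) (b : κ → k[X]) : Set ((κ → ℤ) × (κ → ℤ)) :=
  {v | IsCoprime (comb b v.1) (comb b v.2) ∧
    SixForms N (C α * comb b v.1 + C β * comb b v.2) (comb b v.1) (comb b v.2) ∧
    TateFor (C α * comb b v.1 + C β * comb b v.2) (comb b v.1) (comb b v.2)}

end defs

/-- Vectors and pairs of vectors. -/
theorem ncard_pairs {κ : Type} [Fintype κ] (B : ℕ) (S : Set ((κ → ℤ) × (κ → ℤ))) :
    (Pairs κ B ∩ S).ncard = (Pool.Agent.Q126.TD.Box (κ ⊕ κ) B ∩
      {v | (Pool.Agent.Q308.TC.left v, Pool.Agent.Q308.TC.right v) ∈ S}).ncard := by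
  have hinj : Function.Injective (fun v : κ ⊕ κ → ℤ =>
      (Pool.Agent.Q308.TC.left v, Pool.Agent.Q308.TC.right v)) := by
    intro v w h
    funext i
    rcases i with i | i
    · exact congrFun (congrArg Prod.fst h) i
    · exact congrFun (congrArg Prod.snd h) i
  rw [← Set.ncard_image_of_injective _ hinj]
  congr 1
  ext x
  constructor
  · rintro ⟨h1, h2⟩
    refine ⟨Sum.elim x.1 x.2, ⟨?_, h2⟩, rfl⟩
    rintro (i | i)
    · exact (h1 i).1
    · exact (h1 i).2
  · rintro ⟨v, ⟨h1, h2⟩, rfl⟩
    exact ⟨fun i => ⟨h1 (Sum.inl i), h1 (Sum.inr i)⟩, h2⟩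

/-- **The Tate conjecture at 2 for almost all rational pull-backs.** -/
theorem result {N : ℕ} (hN : Odd N) {k : Type} [Field k] [CharZero k]
    (hk : ∃ s : Finset k, Subfield.closure (s : Set k) = ⊤)
    {α β μ : k} (hα : α ≠ 0) (hβ : β ≠ 0) (hμ : μ ≠ 0)
    (hsq : ((α + β) ^ 2 - 1) * ((α - β) ^ 2 - 1) = μ ^ 2)
    {κ : Type} [Fintype κ] {b : κ → k[X]} (hb : Spans N b) :
    Tendsto (fun B : ℕ => ((Pairs κ B ∩ Good N α β b).ncard : ℝ) / (Pairs κ B).ncard)
      atTop (𝓝 1) := by
  have hN0 : 0 < N := hN.pos
  have form : ∀ u w : k, (u ≠ 0 ∨ w ≠ 0) → _ := fun u w h =>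
    Pool.Agent.Q308.TC.form_full (k := k) hk hN0 hb (u := u) (w := w) h
  have h1 := form (α + 1) β (Or.inr hβ)
  have h2 := form (α - 1) β (Or.inr hβ)
  have h3 := form α (β + 1) (Or.inl hα)
  have h4 := form α (β - 1) (Or.inl hα)
  have h5 := form 1 1 (Or.inl one_ne_zero)
  have h6 := form 1 (-1) (Or.inl one_ne_zero)
  have h7 := Pool.Agent.Q308.TC.coprime_full (k := k) hk hN0 hb
  have h8 : Pool.Agent.Q126.TD.Full {v : κ ⊕ κ → ℤ |
      (Pool.Agent.Q308.TC.left v, Pool.Agent.Q308.TC.right v) ∈ Good N α β b} := by
    refine ((((((h1.inter h2).inter h3).inter h4).inter h5).inter h6).inter h7).mono ?_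
    rintro v ⟨⟨⟨⟨⟨⟨v1, v2⟩, v3⟩, v4⟩, v5⟩, v6⟩, v7⟩
    obtain ⟨q, hq⟩ : ∃ q, q = Pool.Agent.Q308.TC.comb b (Pool.Agent.Q308.TC.left v) := ⟨_, rfl⟩
    obtain ⟨r, hr⟩ : ∃ r, r = Pool.Agent.Q308.TC.comb b (Pool.Agent.Q308.TC.right v) := ⟨_, rfl⟩
    simp only [Set.mem_ofPred_eq, ← hq, ← hr] at v1 v2 v3 v4 v5 v6 v7
    have hS : SixForms N (C α * q + C β * r) q r := by
      intro f hf
      simp only [Set.mem_insert_iff, Set.mem_singleton_iff] at hf
      rcases hf with rfl | rfl | rfl | rfl | rfl | rfl
      · have e : C α * q + C β * r + q = C (α + 1) * q + C β * r := by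
          rw [C_add, C_1]; ring
        rw [e]; exact v1
      · have e : C α * q + C β * r - q = C (α - 1) * q + C β * r := by
          rw [C_sub, C_1]; ring
        rw [e]; exact v2
      · have e : C α * q + C β * r + r = C α * q + C (β + 1) * r := by
          rw [C_add, C_1]; ring
        rw [e]; exact v3
      · have e : C α * q + C β * r - r = C α * q + C (β - 1) * r := by
          rw [C_sub, C_1]; ring
        rw [e]; exact v4
      · have e : q + r = C 1 * q + C 1 * r := by
          rw [C_1]; ring
        rw [e]; exact v5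
      · have e : q - r = C 1 * q + C (-1) * r := by
          rw [C_1, C_neg, C_1]; ring
        rw [e]; exact v6
    have e1 : comb b (Pool.Agent.Q308.TC.left v) = q := hq.symm
    have e2 : comb b (Pool.Agent.Q308.TC.right v) = r := hr.symm
    show _ ∧ _ ∧ _
    rw [e1, e2]
    refine ⟨v7, hS, ?_⟩
    intro k' K F _ _ _ _ _ _ _ _ hT
    exact rank2 hT two_ne_zero hα hβ hμ hsq rfl v7 hN fun f hf =>
      ⟨(hS f hf).1, (hS f hf).1.separable, (hS f hf).2⟩
  refine h8.congr fun B => ?_
  rw [ncard_pairs]
  congr 1
  have h9 := ncard_pairs (κ := κ) B Set.univ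
  rw [Set.inter_univ] at h9
  rw [h9]
  have h10 : {v : κ ⊕ κ → ℤ | (Pool.Agent.Q308.TC.left v, Pool.Agent.Q308.TC.right v) ∈
      (Set.univ : Set ((κ → ℤ) × (κ → ℤ)))} = Set.univ := by
    ext v
    simp
  rw [h10, Set.inter_univ, Pool.Agent.Q126.TD.box_ncard]
  push_cast
  rfl

end Pool.Agent.Results.MP_1bad5e_ag.AlmostAllRationalPullbacks
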