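import Mathlib
import Pool.Agent.TH115.GD.Defs
import Pool.Agent.TH115.TC.TwMain
import Pool.Agent.Q308.TW.Cub

/-!
# The Tate conjecture at 2 for almost all quadratic twists of the elliptic surfaces `y² = g(x) + t`

Let `k` be a number field, or any finitely generated field of characteristic zero, `k'` a separable
closure of `k`, `K = k(t)`, `F = k'(t)`. Let

`g = x³ + b₂ x² + b₁ x + b₀`

be any monic polynomial of degree three over `k`. For a polynomial `D` over `k` let `X_D` be the elliptic
surface over the projective line with the generic fibre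

`E_D : D(t) y² = g(x) + t`,

that is, `y² = x³ + b₂ D x² + b₁ D² x + D³ (b₀ + t)`, the quadratic twist by `D` of the pencil of cubic
curves `y² = g(x) + t`.

Let `N ≥ 2`, and let `b i`, `i` in a finite set `κ`, be any polynomials over `k` which span the
polynomials of degree at most `N` (for example `b i = t ^ i`, or, for a number field `k`, the `ω_j t ^ i`
for a basis `ω` of the ring of integers of `k`).

Theorem. Among the integer combinations `D = ∑ v i • b i` with `|v i| ≤ B`, the proportion of those for
which `D` is irreducible of degree `N` and every class in `V₂ Sel(E_D / F)` which is fixed by the Galois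
group of `k` comes from `E_D(K)` tends to one as `B` tends to infinity.

The surface `X_D` has `N` fibres of type `I₀*` over the zeros of `D` and a fibre of additive type at
infinity, its geometric genus tends to infinity with `N`, it is simply connected (an elliptic surface
over the projective line with a section and singular fibres), and `Br(X_D ⊗ k') = Ш(E_D / F)`
(Grothendieck). So the Tate conjecture for divisors at 2 holds for 100 percent of the quadratic twists of
each of these surfaces by the polynomials of each degree, even or odd.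

Method: the descent of `Pool.Agent.TH115.TC` gives the conclusion if `D` is squarefree and the cubic
polynomial `g(x) + t` has no root modulo the irreducible factors of `D`. The field `k(ω)`, `ω` a third
root of unity, can be embedded in `ℚ_p`, with all the coefficients which occur integral, for infinitely
many primes `p` (Cassels). For these `p` the polynomial `g(x) + α` has no root modulo `p` for at least
`(p - 3) / 3` residues `α` modulo `p` (by the parametrisation of the conic `(g(x) - g(y)) / (x - y) = 0`),
and if `D` is congruent to `(t - α) G` modulo `p`, `G(α) ≠ 0`, for one of these `α`, then `g(x) + t` has no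
root modulo `D`. The proportion of these `D` modulo `p` is positive, independent of `p`.
-/

set_option autoImplicit false
set_option linter.all false

namespace Pool.Agent.Results.MP_1bad5e_ag.AlmostAllTwists

open Polynomial Filter Topology Pool.Agent.TH115.GD

section defs

variable {k : Type} [Field k] {κ : Type} [Fintype κ]

/-- The polynomials `b i` have degree at most `N` and span the polynomials of degree at most `N`. -/
def Spans (N : ℕ) (b : κ → k[X]) : Prop :=
  (∀ i, (b i).natDegree ≤ N) ∧ ∀ j : Fin (N + 1), ∃ c : κ → k, ∑ i, C (c i) * b i = X ^ (j : ℕ)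

/-- The integer combination of the `b i` with the coefficients `v i`. -/
noncomputable def comb (b : κ → k[X]) (v : κ → ℤ) : k[X] := ∑ i, C ((v i : ℤ) : k) * b i

/-- The integer vectors with coordinates of absolute value at most `B`. -/
def Box (κ : Type) (B : ℕ) : Set (κ → ℤ) := {v | ∀ i, |v i| ≤ B}

/-- The property `S` holds for a proportion of the vectors in the boxes which tends to one. -/
def AlmostAll (S : Set (κ → ℤ)) : Prop :=
  Tendsto (fun B : ℕ => ((Box κ B ∩ S).ncard : ℝ) / (Box κ B).ncard) atTop (𝓝 1)

/-- The curve `y ^ 2 = x ^ 3 + b₂ D x ^ 2 + b₁ D ^ 2 x + D ^ 3 (b₀ + t)` over `K = k(t)`, that is,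
`D(t) y ^ 2 = x ^ 3 + b₂ x ^ 2 + b₁ x + b₀ + t`. -/
noncomputable def E (K : Type) [Field K] [Algebra k[X] K] (b₂ b₁ b₀ : k) (D : k[X]) :
    WeierstrassCurve K :=
  ⟨0, algebraMap k[X] K (D * C b₂), 0, algebraMap k[X] K (D ^ 2 * C b₁),
    algebraMap k[X] K (D ^ 3 * (C b₀ + X))⟩

/-- The Tate conjecture at 2 for the surface `D(t) y ^ 2 = x ^ 3 + b₂ x ^ 2 + b₁ x + b₀ + t`. -/
def TateFor (b₂ b₁ b₀ : k) (D : k[X]) : Prop :=
  ∀ (k' K F : Type) [Field k'] [Algebra k k'] [Field K] [Algebra k[X] K]
    [Field F] [Algebra k'[X] F] [IsFractionRing k'[X] F] [Algebra K F], IsTower k k' K F →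
    TateAtTwo (F := F) k' (E K b₂ b₁ b₀ D)

/-- The vectors `v` for which `D = ∑ v i • b i` is irreducible of degree `N` and the surface satisfies
the Tate conjecture at 2. -/
def Good (N : ℕ) (b₂ b₁ b₀ : k) (b : κ → k[X]) : Set (κ → ℤ) :=
  {v | (comb b v).natDegree = N ∧ Irreducible (comb b v) ∧ TateFor b₂ b₁ b₀ (comb b v)}

end defs

/-- One polynomial `D`. -/
theorem tate_of {k : Type} [Field k] [CharZero k] {b₂ b₁ b₀ : k} {D : k[X]} (hD : Irreducible D)
    (h : ∀ u : k[X], ¬ D ∣ (X ^ 3 + C b₂ * X ^ 2 + C b₁ * X + C b₀ : k[X]).comp u + X) :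
    TateFor b₂ b₁ b₀ D := by
  intro k' K F _ _ _ _ _ _ _ _ hT
  have hder : derivative (cb b₂ b₁ b₀) ≠ 0 := by
    intro h0
    have h1 := natDegree_eq_zero_of_derivative_eq_zero h0
    rw [(cb_deg b₂ b₁ b₀).1] at h1
    exact absurd h1 (by norm_num)
  have h1 := tw_tate (F := F) hT (two_ne_zero (α := k)) (b2 := b₂) (b1 := b₁) (b0 := b₀) (l := [])
    hder (by intro p hp; exact absurd hp (List.not_mem_nil)) (by
      intro γ hγ
      exact absurd hγ (List.not_mem_nil)) hD.squarefree (by
      intro π hπ hd u hu
      apply h u
      have h2 : Associated π D := (hπ.dvd_irreducible_iff_associated hD).1 hd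
      have h3 : D ∣ π := h2.symm.dvd
      exact h3.trans hu)
  exact h1

/-- **The Tate conjecture at 2 for 100 percent of the quadratic twists.** -/
theorem result {k : Type} [Field k] [CharZero k]
    (hk : ∃ s : Finset k, Subfield.closure (s : Set k) = ⊤) (b₂ b₁ b₀ : k) {N : ℕ} (hN : 2 ≤ N)
    {κ : Type} [Fintype κ] {b : κ → k[X]} (hb : Spans N b) : AlmostAll (Good N b₂ b₁ b₀ b) := by
  obtain ⟨M, rfl⟩ : ∃ M, N = M + 1 := ⟨N - 1, by omega⟩
  have h1 := Pool.Agent.Q308.TW.cubic_full hk b₂ b₁ b₀ (by omega : 1 ≤ M) hb
  have h2 := Pool.Agent.Q308.TC.span_full hk (by omega : 0 < M + 1) hb (irreducible_X (R := k))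
  have h3 : Pool.Agent.Q126.TD.Full (Good (M + 1) b₂ b₁ b₀ b) := by
    refine (h1.inter h2).mono ?_
    rintro v ⟨h4, h5, h6⟩
    rw [X_comp] at h5
    exact ⟨h6, h5, tate_of h5 h4⟩
  refine h3.congr fun B => ?_
  have h5 : ((Box κ B).ncard : ℝ) = (2 * B + 1 : ℝ) ^ Fintype.card κ := by
    have : (Box κ B).ncard = (2 * B + 1) ^ Fintype.card κ :=
      Pool.Agent.Q126.TD.box_ncard (κ := κ) B
    rw [this]
    push_cast
    rfl
  rw [h5]
  rfl

end Pool.Agent.Results.MP_1bad5e_ag.AlmostAllTwists
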