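import Mathlib
import Pool.Agent.Q63.SP.Tate

/-!
# The Tate conjecture for complete intersections of two diagonal hypersurfaces in `P^4`

Let `X` be a smooth complete intersection of
* two diagonal hypersurfaces `∑ c_i x_i ^ m = 0` of the same degree `m`, for any `m`, in `P^4`, or
* four diagonal quadrics `∑ c_i x_i ^ 2 = 0` in `P^6`,
over any finitely generated field `k` (of any characteristic not dividing the degree `m`; enlarging `k` we may
assume that it contains the `m`-th roots of unity). These are simply connected surfaces, of general type for `m > 2` in
the first and always in the second case. Then the Tate conjecture is true for `X`: all Galois invariant classes in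
`H^2(X, ℚ_ℓ(1))` are linear combinations of classes of divisors.

1. The geometry. Five lines in general position in the plane are tangent to a conic. More generally, `n + 3`
hyperplanes in general position in `P^n` are, after the identification of `P^n` with the space of effective divisors
of degree `n` on `P^1`, the sets of the divisors which contain one of `n + 3` points. So the `m`-th root of a
product of powers of the `n + 3` linear forms defines a covering of `P^n` which is the image of the `n`-th power of a
curve.

2. `X` is a covering of the plane with the group `(μ_m)^r/μ_m`, branched over `r` lines in general position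
(`r = 5`, `7`). For a character `a` of this group, with kernel `N_a`, the surface `X/N_a` is the cyclic covering of the
plane, branched over the `r` lines with the exponents `a`. For `r = 5` it is dominated by the square of a curve, by
the first part, and the Tate conjecture for divisors is known for products of curves (Tate, Zarhin, Faltings). For
`m = 2`, `r = 7` it is branched over at most six lines, so it is a rational or a K3 surface.
-/

set_option autoImplicit false

namespace Pool.Agent.Results.MP_1bad5e_ag.TwoDiagonalSurfaces

open Pool.Agent.Q63.SP

theorem result :
    (∀ (k : Type) [Field k] [DecidableEq k] [IsAlgClosed k] (n : ℕ), 0 < n →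
      ∀ v : Fin (n + 3) → Fin (n + 1) → k, GenPos v →
      ∃ (p c : Fin (n + 3) → k) (w : Fin (n + 1) → k), Function.Injective p ∧ (∀ i, c i ≠ 0) ∧ w ≠ 0 ∧
        ∀ (m : ℕ) (a : Fin (n + 3) → ℕ), 0 < m → ∃ γ : k, γ ^ m = ∏ i, c i ^ a i ∧
          (∀ u : Fin n → k × k, (∀ l, u l ∈ curve m p a) →
            ∃! t, t ∈ cover m v w a ∧ IsImage v p c γ u t) ∧
          (∀ t ∈ cover m v w a, ∃ u : Fin n → k × k, (∀ l, u l ∈ curve m p a) ∧
            IsImage v p c γ u t)) ∧
    (∀ (F V Γ : Type) [Field F] [IsAlgClosed F] [CharZero F] [AddCommGroup V] [Module F V] [Group Γ]
      (m r : ℕ), 0 < m → r = 5 ∨ (m = 2 ∧ r = 7) →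
      ∀ (ρ : Representation F (Multiplicative (Fin r → ZMod m)) V) (γ : Representation F Γ V)
        (A : Submodule F V), DiagonalTate m r ρ γ A → ∀ v, (∀ s, γ s v = v) → v ∈ A) :=
  ⟨fun _ _ _ _ _ hn _ hv => cover_of_curves hn hv,
    fun _ _ _ _ _ _ _ _ _ _ _ hm h _ _ _ hD => diagonal_tate hm h hD⟩

end Pool.Agent.Results.MP_1bad5e_ag.TwoDiagonalSurfaces
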